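import Mathlib
import Pool.Agent.W400.GSAux

/-!
# Golod-Shafarevich groups in characteristic zero need not have infinite virtual first Betti number

We construct a group that is Golod-Shafarevich in characteristic zero, all of whose subgroups of
finite index have first Betti number at most `2`.

Idea: let `F` be free of rank `2`.  For a normal subgroup `H` of finite index in `F` and any `N`,
every homomorphism `H → ℚ` that vanishes on `H ∩ γ_N(F)` is the restriction of a homomorphism
`F → ℚ` (the conjugation action of `F` on such homomorphisms is unipotent and of finite order).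
So finitely many relators in `H ∩ γ_N(F)`, their number being bounded independently of `N`, suffice
to bring the first Betti number of the image of `H` down to at most `2`.  Do this for a countable
cofinal family of normal subgroups of finite index, with rapidly growing `N`.
-/

namespace Pool.Agent.Results.MP_09d285_al.BoundedVirtualBetti

open Pool.Agent.W400.GS

/-- The degree `D₀(f)` of an element of a free group: the supremum of all `n ≥ 1` with
`f ∈ γ_n F`, where `γ_1 F = F`, `γ_{n+1} F = [γ_n F, F]` is the lower central series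
(`lowerCentralSeries n` of Mathlib is `γ_{n+1}`).  It is `∞` for `f = 1`. -/
noncomputable def D0 {d : ℕ} (f : FreeGroup (Fin d)) : ℕ∞ :=
  ⨆ (n : ℕ) (_ : f ∈ (⊤ : Subgroup (FreeGroup (Fin d))).lowerCentralSeries n), ((n + 1 : ℕ) : ℕ∞)

/-- `τ ^ n` for an exponent `n ∈ ℕ ∪ {∞}`, with `τ ^ ∞ = 0`. -/
noncomputable def powTop (τ : ℝ) (n : ℕ∞) : ℝ := if n = ⊤ then 0 else τ ^ n.toNat

/-- `G` is Golod-Shafarevich in characteristic zero: it has a presentation `⟨X | R⟩` with `X`
finite (`R` may be infinite) such that `1 - |X| τ + ∑_{r ∈ R} τ ^ D₀(r) < 0` for some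
`τ ∈ (0, 1)`. -/
def IsGolodShafarevichZero (G : Type) [Group G] : Prop :=
  ∃ (d : ℕ) (R : Set (FreeGroup (Fin d))), Nonempty (PresentedGroup R ≃* G) ∧
    ∃ τ : ℝ, 0 < τ ∧ τ < 1 ∧
      Summable (fun r : R => powTop τ (D0 (r : FreeGroup (Fin d)))) ∧
      1 - (d : ℝ) * τ + ∑' r : R, powTop τ (D0 (r : FreeGroup (Fin d))) < 0

/-- The first Betti number of a group `H`: the dimension over `ℚ` of `(H/[H,H]) ⊗ ℚ`,
as a cardinal number. -/
noncomputable def firstBetti (H : Type) [Group H] : Cardinal :=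
  Module.rank ℚ (TensorProduct ℤ ℚ (Additive (Abelianization H)))

theorem powTop_nonneg {τ : ℝ} (h : 0 ≤ τ) (n : ℕ∞) : 0 ≤ powTop τ n := by
  unfold powTop
  split
  · exact le_refl 0
  · exact pow_nonneg h _

theorem powTop_D0_le {d : ℕ} {τ : ℝ} (h0 : 0 ≤ τ) (h1 : τ ≤ 1) {f : FreeGroup (Fin d)} {N : ℕ}
    (hf : f ∈ (⊤ : Subgroup (FreeGroup (Fin d))).lowerCentralSeries N) :
    powTop τ (D0 f) ≤ τ ^ N := by
  have h2 : ((N + 1 : ℕ) : ℕ∞) ≤ D0 f := by
    unfold D0
    exact le_iSup₂_of_le N hf le_rfl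
  unfold powTop
  split
  · exact pow_nonneg h0 _
  · rename_i hne
    apply pow_le_pow_of_le_one h0 h1
    have h3 : ((D0 f).toNat : ℕ∞) = D0 f := ENat.natCast_toNat hne
    rw [← h3] at h2
    have h4 : N + 1 ≤ (D0 f).toNat := by exact_mod_cast h2
    omega

theorem sum_biUnion_le' {α : Type*} [DecidableEq α] (S : ℕ → Finset α) (w : α → ℝ)
    (hw : ∀ x, 0 ≤ w x) (M : ℕ) :
    ∑ x ∈ (Finset.range M).biUnion S, w x ≤ ∑ m ∈ Finset.range M, ∑ x ∈ S m, w x := by
  induction M with
  | zero => simp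
  | succ M ih =>
    rw [Finset.sum_range_succ, Finset.range_add_one, Finset.biUnion_insert, Finset.union_comm]
    have h := Finset.sum_union_inter (s₁ := (Finset.range M).biUnion S) (s₂ := S M) (f := w)
    have h2 : 0 ≤ ∑ x ∈ (Finset.range M).biUnion S ∩ S M, w x :=
      Finset.sum_nonneg fun x _ => hw x
    linarith

theorem sum_geom_half (M : ℕ) : ∑ m ∈ Finset.range M, ((1 : ℝ) / 2) ^ (m + 1) = 1 - (1 / 2) ^ M := by
  induction M with
  | zero => simp
  | succ M ih =>
    rw [Finset.sum_range_succ, ih]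
    ring

/-- For every `d ≥ 2` there is a set of relators as wanted. -/
theorem exists_relators (d : ℕ) (hd : 2 ≤ d) : ∃ R : Set (FreeGroup (Fin d)),
    Summable (fun r : R => powTop (3 / 4) (D0 (r : FreeGroup (Fin d)))) ∧
    1 - (d : ℝ) * (3 / 4) + ∑' r : R, powTop (3 / 4) (D0 (r : FreeGroup (Fin d))) < 0 ∧
    ∀ K : Subgroup (PresentedGroup R), K.FiniteIndex → firstBetti K ≤ (d : Cardinal) := by
  classical
  -- choose the depth `N m` and the finite sets `S m`
  have hN : ∀ m : ℕ, ∃ N : ℕ, (3 / 4 : ℝ) ^ N <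
      (1 / 4) * (1 / 2) ^ (m + 1) / (Module.finrank ℚ (QH (core d m)) + 1) := by
    intro m
    apply exists_pow_lt_of_lt_one
    · positivity
    · norm_num
  choose N hN using hN
  choose S hS1 hS2 hS3 using fun m => exists_killing (core d m) (N m)
  have hw : ∀ m, ∑ r ∈ S m, powTop (3 / 4) (D0 r) ≤ (1 / 4 : ℝ) * (1 / 2) ^ (m + 1) := by
    intro m
    set c : ℝ := (Module.finrank ℚ (QH (core d m)) : ℝ) with hc
    have hc0 : 0 ≤ c := Nat.cast_nonneg _
    calc ∑ r ∈ S m, powTop (3 / 4) (D0 r) ≤ ∑ r ∈ S m, (3 / 4 : ℝ) ^ (N m) := by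
          apply Finset.sum_le_sum
          intro r hr
          exact powTop_D0_le (by norm_num) (by norm_num) (hS1 m r hr).2
      _ = (S m).card * (3 / 4 : ℝ) ^ (N m) := by rw [Finset.sum_const, nsmul_eq_mul]
      _ ≤ c * ((1 / 4) * (1 / 2) ^ (m + 1) / (c + 1)) := by
          apply mul_le_mul _ (hN m).le (by positivity) hc0
          rw [hc]
          exact Nat.cast_le.mpr (hS2 m)
      _ = (1 / 4 : ℝ) * (1 / 2) ^ (m + 1) * (c / (c + 1)) := by ring
      _ ≤ (1 / 4 : ℝ) * (1 / 2) ^ (m + 1) * 1 := by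
          apply mul_le_mul_of_nonneg_left _ (by positivity)
          rw [div_le_one (by positivity)]
          linarith
      _ = _ := mul_one _
  let R : Set (FreeGroup (Fin d)) := ⋃ m, (S m : Set (FreeGroup (Fin d)))
  have hfin : ∀ u : Finset R, ∑ r ∈ u, powTop (3 / 4) (D0 (r : FreeGroup (Fin d))) ≤ 1 / 4 := by
    intro u
    have hex : ∀ r : R, ∃ m, (r : FreeGroup (Fin d)) ∈ S m := by
      intro r
      obtain ⟨m, hm⟩ := Set.mem_iUnion.mp r.2
      exact ⟨m, hm⟩
    choose g hg using hex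
    obtain ⟨M, hM⟩ : ∃ M, ∀ r ∈ u, g r < M :=
      ⟨(u.sup g) + 1, fun r hr => Nat.lt_succ_of_le (Finset.le_sup (f := g) hr)⟩
    have hnn : ∀ x : FreeGroup (Fin d), 0 ≤ powTop (3 / 4) (D0 x) :=
      fun x => powTop_nonneg (by norm_num) _
    calc ∑ r ∈ u, powTop (3 / 4) (D0 (r : FreeGroup (Fin d)))
        = ∑ x ∈ u.image (fun r : R => (r : FreeGroup (Fin d))), powTop (3 / 4) (D0 x) := by
          rw [Finset.sum_image]
          intro a _ b _ h
          exact Subtype.ext h
      _ ≤ ∑ x ∈ (Finset.range M).biUnion S, powTop (3 / 4) (D0 x) := by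
          apply Finset.sum_le_sum_of_subset_of_nonneg
          · intro x hx
            obtain ⟨r, hr, rfl⟩ := Finset.mem_image.mp hx
            exact Finset.mem_biUnion.mpr ⟨g r, Finset.mem_range.mpr (hM r hr), hg r⟩
          · intro x _ _
            exact hnn x
      _ ≤ ∑ m ∈ Finset.range M, ∑ x ∈ S m, powTop (3 / 4) (D0 x) :=
          sum_biUnion_le' S _ hnn M
      _ ≤ ∑ m ∈ Finset.range M, (1 / 4 : ℝ) * (1 / 2) ^ (m + 1) :=
          Finset.sum_le_sum fun m _ => hw m
      _ = (1 / 4) * (1 - (1 / 2) ^ M) := by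
          rw [← Finset.mul_sum, sum_geom_half]
      _ ≤ 1 / 4 := by
          have : (0 : ℝ) ≤ (1 / 2) ^ M := by positivity
          linarith
  have hsum : Summable (fun r : R => powTop (3 / 4) (D0 (r : FreeGroup (Fin d)))) :=
    summable_of_sum_le (fun r => powTop_nonneg (by norm_num) _) hfin
  refine ⟨R, hsum, ?_, ?_⟩
  · have h1 : ∑' r : R, powTop (3 / 4) (D0 (r : FreeGroup (Fin d))) ≤ 1 / 4 :=
      Real.tsum_le_of_sum_le (fun r => powTop_nonneg (by norm_num) _) hfin
    have h2 : (2 : ℝ) ≤ d := by exact_mod_cast hd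
    linarith
  · intro K hK
    apply betti_le d R _ K hK
    intro m
    refine ⟨N m, fun φ hφ h hh => hS3 m φ (fun r hr hrS => ?_) h hh⟩
    exact hφ r hr (Set.mem_iUnion.mpr ⟨m, hrS⟩)

/-- There is a group, Golod-Shafarevich in characteristic zero, all of whose subgroups of finite
index have first Betti number at most `2`. -/
theorem result : ∃ (G : Type) (_ : Group G), IsGolodShafarevichZero G ∧
    ∀ H : Subgroup G, H.FiniteIndex → firstBetti H ≤ 2 := by
  obtain ⟨R, h1, h2, h3⟩ := exists_relators 2 le_rfl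
  refine ⟨PresentedGroup R, inferInstance, ⟨2, R, ⟨MulEquiv.refl _⟩, 3 / 4, by norm_num,
    by norm_num, h1, ?_⟩, ?_⟩
  · exact_mod_cast h2
  · intro H hH
    exact_mod_cast h3 H hH

end Pool.Agent.Results.MP_09d285_al.BoundedVirtualBetti
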